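import Pool.Agent.TH316.FQ.Final

set_option autoImplicit false

/-!
# No maximiser of the eigenvalue-torsion functional `F_q` in the plane for `q` slightly above `1`

There is `q₀ > 1` such that for every `q` with `1 < q < q₀` the supremum `M_{2,q}` of `F_q` over the
open subsets of the plane of finite positive area is finite and is not attained.
-/

open MeasureTheory Metric Set

namespace Pool.Agent.Results.MP_898b17_an.NoMaximiserPlane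

/-- smooth functions with compact support in `Ω` which do not vanish identically -/
def TestFn {d : ℕ} (Ω : Set (EuclideanSpace ℝ (Fin d))) (u : EuclideanSpace ℝ (Fin d) → ℝ) : Prop :=
  ContDiff ℝ (⊤ : ℕ∞) u ∧ HasCompactSupport u ∧ tsupport u ⊆ Ω ∧ ∃ x, u x ≠ 0

/-- first eigenvalue of the Dirichlet Laplacian: the infimum of the Rayleigh quotients -/
noncomputable def lam {d : ℕ} (Ω : Set (EuclideanSpace ℝ (Fin d))) : ℝ :=
  sInf {r : ℝ | ∃ u, TestFn Ω u ∧ r = (∫ x, ‖gradient u x‖ ^ 2) / ∫ x, u x ^ 2}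

/-- torsional rigidity: the supremum of `(∫ u)² / ∫ |∇u|²` -/
noncomputable def tor {d : ℕ} (Ω : Set (EuclideanSpace ℝ (Fin d))) : ℝ :=
  sSup {r : ℝ | ∃ u, TestFn Ω u ∧ r = (∫ x, u x) ^ 2 / ∫ x, ‖gradient u x‖ ^ 2}

/-- the scale invariant functional `F_q` in dimension `d` -/
noncomputable def Fq {d : ℕ} (q : ℝ) (Ω : Set (EuclideanSpace ℝ (Fin d))) : ℝ :=
  lam Ω * tor Ω ^ q / (volume Ω).toReal ^ (((d : ℝ) * q + 2 * q - 2) / (d : ℝ))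

/-- the admissible sets: open, of finite positive measure -/
def Adm {d : ℕ} (Ω : Set (EuclideanSpace ℝ (Fin d))) : Prop := IsOpen Ω ∧ 0 < volume Ω ∧ volume Ω < ⊤

theorem result : ∃ q₀ : ℝ, 1 < q₀ ∧ ∀ q : ℝ, 1 < q → q < q₀ →
    BddAbove {r : ℝ | ∃ Ω : Set (EuclideanSpace ℝ (Fin 2)), Adm Ω ∧ r = Fq q Ω} ∧
    ∀ Ω : Set (EuclideanSpace ℝ (Fin 2)), Adm Ω →
      Fq q Ω < sSup {r : ℝ | ∃ Ω' : Set (EuclideanSpace ℝ (Fin 2)), Adm Ω' ∧ r = Fq q Ω'} := by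
  obtain ⟨q₀, hq₀, h⟩ := Pool.Agent.TH316.FQ.no_max_pl
  have key : ∀ (q : ℝ) (Ω : Set (EuclideanSpace ℝ (Fin 2))), Fq q Ω = Pool.Agent.TH316.FQ.FP q Ω := by
    intro q Ω
    have e : (((2 : ℕ) : ℝ) * q + 2 * q - 2) / ((2 : ℕ) : ℝ) = 2 * q - 1 := by push_cast; ring
    unfold Fq Pool.Agent.TH316.FQ.FP
    rw [e]
    rfl
  refine ⟨q₀, hq₀, fun q hq hq1 => ?_⟩
  have hb : BddAbove {r : ℝ | ∃ Ω : Set (EuclideanSpace ℝ (Fin 2)), Adm Ω ∧ r = Fq q Ω} := by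
    refine ⟨1, ?_⟩
    rintro r ⟨Ω, ⟨h1, h2, h3⟩, rfl⟩
    rw [key]
    exact Pool.Agent.TH316.FQ.fp_le_one hq h1 h2 h3.ne
  refine ⟨hb, fun Ω hΩ => ?_⟩
  obtain ⟨Ω', g1, g2, g3, g4⟩ := h q hq hq1 Ω hΩ.1 hΩ.2.1 hΩ.2.2.ne
  rw [key q Ω]
  refine g4.trans_le ?_
  exact le_csSup hb ⟨Ω', ⟨g1, g2, lt_top_iff_ne_top.2 g3⟩, (key q Ω').symm⟩

end Pool.Agent.Results.MP_898b17_an.NoMaximiserPlane
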